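import Mathlib
import Pool.Agent.W42.Form
import Pool.Agent.W42.Small
import Pool.Agent.H547R3.Cyc

set_option autoImplicit false

/-!
Explicit lower bounds for `|2 ^ L - 3 ^ K|`, and the shortest possible unknown cycle given the verification of
all integers of absolute value below `2 ^ 15`.
-/

namespace Pool.Agent.V5helper2.BC

open Pool.Agent.W42 Finset

theorem log3_gt : (1.0985 : ℝ) < Real.log 3 := by
  have h := Form.log_pos_ratio (a := 84) (b := 53) (by norm_num)
  push_cast at h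
  have := Real.log_two_gt_d9
  linarith

theorem log3_lt : Real.log 3 < (1.0989 : ℝ) := by
  have h := Form.log_ratio (a := 65) (b := 41) (ε := 0) (by norm_num)
  push_cast at h
  have := Real.log_two_lt_d9
  linarith

/-- A uniform lower bound. -/
theorem lam_lower (L K : ℕ) (hL : 1 ≤ L) :
    (2 : ℝ) ^ (-((L : ℝ) / 40 + 16)) ≤ |(L : ℝ) * Real.log 2 - K * Real.log 3| := by
  have l2 := Real.log_two_gt_d9
  have l2' := Real.log_two_lt_d9
  have l3 := log3_gt
  have l3' := log3_lt
  have hLr : (1 : ℝ) ≤ L := by exact_mod_cast hL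
  have hsmall : (2 : ℝ) ^ (-((L : ℝ) / 40 + 16)) ≤ 0.000018 := by
    have h1 : (2 : ℝ) ^ (-((L : ℝ) / 40 + 16)) ≤ 2 ^ (-(16 : ℝ)) :=
      Real.rpow_le_rpow_of_exponent_le (by norm_num) (by linarith)
    have h2 : (2 : ℝ) ^ (-(16 : ℝ)) = 1 / 65536 := by
      rw [Real.rpow_neg (by norm_num), show (16 : ℝ) = ((16 : ℕ) : ℝ) by norm_num, Real.rpow_natCast]
      norm_num
    rw [h2] at h1
    exact h1.trans (by norm_num)
  rcases lt_or_ge L 50508 with hA | hA
  · have h := Form.cf2 (L : ℤ) (K : ℤ) (by exact_mod_cast hL) (by exact_mod_cast hA)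
    push_cast at h
    exact hsmall.trans h
  by_cases hbig : (1 : ℝ) / 10 ≤ |(L : ℝ) * Real.log 2 - K * Real.log 3|
  · exact hsmall.trans (le_trans (by norm_num) hbig)
  push Not at hbig
  obtain ⟨hb1, hb2⟩ := abs_lt.1 hbig
  have hLA : (50508 : ℝ) ≤ L := by exact_mod_cast hA
  have hK1 : (L : ℝ) < 2 * K := by
    by_contra hcon
    push Not at hcon
    nlinarith
  have hK2 : (3 : ℝ) * K < 2 * L := by
    by_contra hcon
    push Not at hcon
    nlinarith
  have hK1' : (L : ℤ) < 2 * K := by exact_mod_cast hK1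
  have hK2' : 3 * (K : ℤ) < 2 * L := by exact_mod_cast hK2
  -- the parameter
  obtain ⟨r, hr⟩ : ∃ r : ℕ, r = L / 1580 := ⟨_, rfl⟩
  have hr1 : 1580 * r ≤ L := by omega
  have hr2 : L < 1580 * r + 1580 := by omega
  have hr31 : 31 ≤ r := by omega
  obtain ⟨i, hi⟩ : ∃ i, r = 31 + i := ⟨r - 31, by omega⟩
  have hH : 49 * (((L : ℤ) : ℝ) - ((K : ℤ) : ℝ)) ≤ (204800 / 117649) ^ r := by
    push_cast
    have h1 : (L : ℝ) < 1580 * r + 1580 := by exact_mod_cast hr2
    have hb : (1 : ℝ) + 0.74 * i ≤ (204800 / 117649) ^ i := by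
      have h := one_add_mul_le_pow (a := (0.74 : ℝ)) (by norm_num) i
      refine le_trans (le_of_eq (by ring)) (h.trans ?_)
      apply pow_le_pow_left₀ (by norm_num)
      norm_num
    have hb2 : (25000000 : ℝ) ≤ (204800 / 117649) ^ 31 := by norm_num
    have h6 : (25000000 : ℝ) * (1 + 0.74 * i) ≤ (204800 / 117649) ^ r := by
      rw [hi, pow_add]
      exact mul_le_mul hb2 hb (by positivity) (by positivity)
    have hr' : (r : ℝ) = 31 + i := by rw [hi]; push_cast; ring
    have hi0 : (0 : ℝ) ≤ i := Nat.cast_nonneg _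
    rw [hr'] at h1
    nlinarith
  have hlow := Form.lower r (L : ℤ) (K : ℤ) hK1' hK2' hH
  push_cast at hlow
  set Λ := |(L : ℝ) * Real.log 2 - K * Real.log 3| with hΛ
  have h1 : (2 : ℝ) ^ (-((L : ℝ) / 40 + 16)) * (2 ^ 13 * 2 ^ (39 * r)) ≤ 1 := by
    rw [← pow_add, ← Real.rpow_natCast, ← Real.rpow_add (by norm_num)]
    apply Real.rpow_le_one_of_one_le_of_nonpos (by norm_num)
    have h2 : (1580 : ℝ) * r ≤ L := by exact_mod_cast hr1
    push_cast
    nlinarith
  have h2 : (0 : ℝ) < 2 ^ 13 * 2 ^ (39 * r) := by positivity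
  by_contra hcon
  push Not at hcon
  have h3 : (2 ^ 13 * 2 ^ (39 * r)) * Λ < (2 ^ 13 * 2 ^ (39 * r)) * (2 : ℝ) ^ (-((L : ℝ) / 40 + 16)) :=
    mul_lt_mul_of_pos_left hcon h2
  linarith

/-- `|2 ^ L - 3 ^ K|` in terms of the linear form. -/
theorem diff_lower (L K : ℕ) : (2 : ℝ) ^ L * min |(L : ℝ) * Real.log 2 - K * Real.log 3| 1 ≤
    2 * |(2 : ℝ) ^ L - 3 ^ K| := by
  have h2 : (0 : ℝ) < 2 ^ L := by positivity
  have e : (2 : ℝ) ^ L - 3 ^ K = 2 ^ L * (1 - Real.exp (-((L : ℝ) * Real.log 2 - K * Real.log 3))) := by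
    have h3 : Real.exp (-((L : ℝ) * Real.log 2 - K * Real.log 3)) = 3 ^ K / 2 ^ L := by
      rw [show -((L : ℝ) * Real.log 2 - K * Real.log 3) = Real.log (3 ^ K / 2 ^ L) by
        rw [Real.log_div (by positivity) (by positivity), Real.log_pow, Real.log_pow]; ring]
      exact Real.exp_log (by positivity)
    rw [h3]
    field_simp
  rw [e, abs_mul, abs_of_pos h2]
  set y := (L : ℝ) * Real.log 2 - K * Real.log 3
  have key : min |y| 1 ≤ 2 * |1 - Real.exp (-y)| := by
    rcases le_or_gt 0 y with hy | hy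
    · rw [abs_of_nonneg hy]
      have h1 : Real.exp (-y) ≤ 1 := Real.exp_le_one_iff.2 (by linarith)
      rw [abs_of_nonneg (by linarith)]
      rcases le_or_gt y 1 with hy1 | hy1
      · refine (min_le_left _ _).trans ?_
        have h3 : Real.exp (-y) ≤ 1 - y / 2 := by
          have hc := convexOn_exp.2 (Set.mem_univ (0 : ℝ)) (Set.mem_univ (-1 : ℝ))
            (show 0 ≤ 1 - y by linarith) hy (by ring)
          simp only [smul_eq_mul, mul_zero, zero_add, Real.exp_zero, mul_one] at hc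
          have h4 : Real.exp (-1) ≤ 1 / 2 := by
            rw [Real.exp_neg, ← one_div]
            apply one_div_le_one_div_of_le (by norm_num)
            have := Real.add_one_le_exp (1 : ℝ)
            linarith
          have h5 : y * -1 = -y := by ring
          rw [h5] at hc
          nlinarith
        linarith
      · refine (min_le_right _ _).trans ?_
        have h4 : Real.exp (-y) ≤ 1 / 2 := by
          have : Real.exp (-y) ≤ Real.exp (-1) := Real.exp_le_exp.2 (by linarith)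
          refine this.trans ?_
          rw [Real.exp_neg, ← one_div]
          apply one_div_le_one_div_of_le (by norm_num)
          have := Real.add_one_le_exp (1 : ℝ)
          linarith
        linarith
    · refine (min_le_left _ _).trans ?_
      rw [abs_of_neg hy]
      have h1 := Real.add_one_le_exp (-y)
      rw [abs_of_nonpos (by linarith)]
      linarith
  nlinarith

/-- certificate that `L log 2 - K log 3` is larger than `L / 65536` for all `K` -/
def chk (L : ℕ) : Bool :=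
  Nat.blt (3 ^ (L * 306 / 485) * 65536) (2 ^ L * (65536 - L)) &&
    Nat.blt (2 ^ L * 65536) (3 ^ (L * 306 / 485 + 1) * (65536 - L))

theorem chk_all : Small.blk chk 400 1 = true := by decide +kernel

theorem short_form (L K : ℕ) (hL : 1 ≤ L) (hL2 : L ≤ 400) :
    (L : ℝ) / 65536 < |(L : ℝ) * Real.log 2 - K * Real.log 3| := by
  have h := Small.blk_spec _ _ _ chk_all L hL (by omega)
  unfold chk at h
  rw [Bool.and_eq_true] at h
  obtain ⟨h1, h2⟩ := h
  have h1' : 3 ^ (L * 306 / 485) * 65536 < 2 ^ L * (65536 - L) := by simpa [Nat.blt] using h1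
  have h2' : 2 ^ L * 65536 < 3 ^ (L * 306 / 485 + 1) * (65536 - L) := by simpa [Nat.blt] using h2
  set k := L * 306 / 485
  have hcast : ((65536 - L : ℕ) : ℝ) = 65536 - L := by
    rw [Nat.cast_sub (by omega)]
    norm_num
  have h1r : (3 : ℝ) ^ k * 65536 < 2 ^ L * (65536 - L) := by
    rw [← hcast]
    exact_mod_cast h1'
  have h2r : (2 : ℝ) ^ L * 65536 < 3 ^ (k + 1) * (65536 - L) := by
    rw [← hcast]
    exact_mod_cast h2'
  have hLr : (1 : ℝ) ≤ L := by exact_mod_cast hL
  have l3 : 0 < Real.log 3 := Real.log_pos (by norm_num)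
  rcases le_or_gt K k with hK | hK
  · have h3 : Real.log (3 ^ k / 2 ^ L) < -((L : ℝ) / 65536) := by
      have h4 : Real.log (3 ^ k / 2 ^ L) ≤ 3 ^ k / 2 ^ L - 1 := Real.log_le_sub_one_of_pos (by positivity)
      have h5 : (3 : ℝ) ^ k / 2 ^ L < 1 - L / 65536 := by
        rw [div_lt_iff₀ (by positivity)]
        linarith
      linarith
    rw [Real.log_div (by positivity) (by positivity), Real.log_pow, Real.log_pow] at h3
    have h6 : (K : ℝ) ≤ k := by exact_mod_cast hK
    rw [lt_abs]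
    left
    nlinarith
  · have h3 : Real.log (2 ^ L / 3 ^ (k + 1)) < -((L : ℝ) / 65536) := by
      have h4 : Real.log (2 ^ L / 3 ^ (k + 1)) ≤ 2 ^ L / 3 ^ (k + 1) - 1 :=
        Real.log_le_sub_one_of_pos (by positivity)
      have h5 : (2 : ℝ) ^ L / 3 ^ (k + 1) < 1 - L / 65536 := by
        rw [div_lt_iff₀ (by positivity)]
        linarith
      linarith
    rw [Real.log_div (by positivity) (by positivity), Real.log_pow, Real.log_pow] at h3
    have h6 : ((k + 1 : ℕ) : ℝ) ≤ K := by exact_mod_cast hK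
    rw [lt_abs]
    right
    nlinarith

/-- In an unknown cycle (`|x| ≥ 2 ^ 15` for all elements) `|2 ^ L - 3 ^ K|` is larger than `2 ^ (0.97 L + 1)`. -/
theorem big_diff (L K : ℕ) (hL : 1 ≤ L)
    (h : |(L : ℝ) * Real.log 2 - K * Real.log 3| ≤ L / 65536) :
    2 * (2 : ℝ) ^ (97 / 100 * (L : ℝ)) < |(2 : ℝ) ^ L - 3 ^ K| := by
  have hL401 : 401 ≤ L := by
    by_contra hcon
    push Not at hcon
    have := short_form L K hL (by omega)
    linarith
  have hd := diff_lower L K
  set Λ := |(L : ℝ) * Real.log 2 - K * Real.log 3| with hΛ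
  have hLr : (401 : ℝ) ≤ L := by exact_mod_cast hL401
  have hpow : (2 : ℝ) ^ L = 2 ^ (97 / 100 * (L : ℝ)) * 2 ^ (3 / 100 * (L : ℝ)) := by
    rw [← Real.rpow_add (by norm_num), ← Real.rpow_natCast]
    congr 1
    ring
  have h97 : (0 : ℝ) < 2 ^ (97 / 100 * (L : ℝ)) := by positivity
  -- it is enough that `4 < 2 ^ (3 L / 100) min Λ 1`
  suffices hs : 4 < (2 : ℝ) ^ (3 / 100 * (L : ℝ)) * min Λ 1 by
    rw [hpow] at hd ⊢
    nlinarith
  rcases lt_or_ge L 1054 with hA | hA
  · have h1 := Form.cf1 (L : ℤ) (K : ℤ) (by exact_mod_cast hL) (by exact_mod_cast hA)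
    push_cast at h1
    rw [← hΛ] at h1
    have h2 : (4096 : ℝ) ≤ 2 ^ (3 / 100 * (L : ℝ)) := by
      have : (4096 : ℝ) = 2 ^ ((12 : ℕ) : ℝ) := by rw [Real.rpow_natCast]; norm_num
      rw [this]
      apply Real.rpow_le_rpow_of_exponent_le (by norm_num)
      push_cast
      linarith
    have h3 : (0.00102 : ℝ) ≤ min Λ 1 := le_min h1 (by norm_num)
    calc (4 : ℝ) < 4096 * 0.00102 := by norm_num
      _ ≤ _ := mul_le_mul h2 h3 (by norm_num) (by positivity)
  rcases lt_or_ge L 50508 with hB | hB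
  · have h1 := Form.cf2 (L : ℤ) (K : ℤ) (by exact_mod_cast hL) (by exact_mod_cast hB)
    push_cast at h1
    rw [← hΛ] at h1
    have hLr' : (1054 : ℝ) ≤ L := by exact_mod_cast hA
    have h2 : (2147483648 : ℝ) ≤ 2 ^ (3 / 100 * (L : ℝ)) := by
      have : (2147483648 : ℝ) = 2 ^ ((31 : ℕ) : ℝ) := by rw [Real.rpow_natCast]; norm_num
      rw [this]
      apply Real.rpow_le_rpow_of_exponent_le (by norm_num)
      push_cast
      linarith
    have h3 : (0.000018 : ℝ) ≤ min Λ 1 := le_min h1 (by norm_num)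
    calc (4 : ℝ) < 2147483648 * 0.000018 := by norm_num
      _ ≤ _ := mul_le_mul h2 h3 (by norm_num) (by positivity)
  · have h1 := lam_lower L K hL
    rw [← hΛ] at h1
    have hLr' : (50508 : ℝ) ≤ L := by exact_mod_cast hB
    have h3 : (2 : ℝ) ^ (-((L : ℝ) / 40 + 16)) ≤ min Λ 1 :=
      le_min h1 (Real.rpow_le_one_of_one_le_of_nonpos (by norm_num) (by linarith))
    calc (4 : ℝ) = 2 ^ ((2 : ℕ) : ℝ) := by rw [Real.rpow_natCast]; norm_num
      _ < 2 ^ (3 / 100 * (L : ℝ) + (-((L : ℝ) / 40 + 16))) := by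
          apply Real.rpow_lt_rpow_of_exponent_lt (by norm_num)
          push_cast
          linarith
      _ = 2 ^ (3 / 100 * (L : ℝ)) * 2 ^ (-((L : ℝ) / 40 + 16)) := by rw [Real.rpow_add (by norm_num)]
      _ ≤ _ := mul_le_mul_of_nonneg_left h3 (by positivity)

end Pool.Agent.V5helper2.BC
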