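import Mathlib
import Pool.Agent.H944.BX.Small
import Pool.Agent.V5helper2.BC.Form

set_option autoImplicit false

/-!
The cycles of the `3x+1` map whose parity word is a balanced product of two words.
-/

namespace Pool.Agent.V5helper2.BC

open Finset Pool.Agent.H944.BX

theorem T_eq : Pool.Agent.H944.BX.T 3 1 = Pool.Agent.H319R2.T := rfl

theorem count_word (x : ℤ) (n : ℕ) :
    (word 3 1 x n).count true = ((range n).filter fun i => (Pool.Agent.H319R2.T^[i] x) % 2 = 1).card := by
  induction n with
  | zero => rfl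
  | succ n ih =>
    rw [word_add, List.count_append, ih, range_add_one, filter_insert]
    have h : word 3 1 ((T 3 1)^[n] x) 1 = [decide ((T 3 1)^[n] x % 2 = 1)] := rfl
    rw [h, T_eq]
    by_cases hx : Pool.Agent.H319R2.T^[n] x % 2 = 1
    · rw [decide_eq_true hx, if_pos hx, card_insert_of_notMem (by simp)]
      rfl
    · rw [decide_eq_false hx, if_neg hx]
      rfl

/-- the elements of the five known cycles -/
def Known (x : ℤ) : Prop :=
  x ∈ ({0, -1, 1, 2, -5, -7, -10, -17, -25, -37, -55, -82, -41, -61, -91, -136, -68, -34} : Set ℤ)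

theorem known_step {x : ℤ} (h : Known x) : Known (Pool.Agent.H319R2.T x) := by
  unfold Known at h ⊢
  simp only [Set.mem_insert_iff, Set.mem_singleton_iff] at h
  rcases h with h | h | h | h | h | h | h | h | h | h | h | h | h | h | h | h | h | h <;> rw [h] <;> decide

theorem known_iter {x : ℤ} (h : Known x) (j : ℕ) : Known (Pool.Agent.H319R2.T^[j] x) := by
  induction j with
  | zero => exact h
  | succ j ih => rw [Function.iterate_succ_apply']; exact known_step ih

/-- A periodic integer is known, or the linear form of its cycle is very small. -/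
theorem known_or {x : ℤ} {n : ℕ} (hn : 1 ≤ n) (hx : Function.minimalPeriod Pool.Agent.H319R2.T x = n) :
    Known x ∨ |(n : ℝ) * Real.log 2 - (word 3 1 x n).count true * Real.log 3| ≤ n / 65536 := by
  classical
  have hper : Pool.Agent.H319R2.T^[n] x = x := by rw [← hx]; exact Function.iterate_minimalPeriod
  set Z : Finset ℤ := (range n).image fun i => Pool.Agent.H319R2.T^[i] x with hZd
  have hZ : Pool.Agent.H547R3.IsCycle Z := ⟨x, n, hn, hper, rfl⟩
  have hinj : Set.InjOn (fun i => Pool.Agent.H319R2.T^[i] x) (range n : Set ℕ) := by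
    intro i hi j hj h
    have h1 := Function.iterate_injOn_Iio_minimalPeriod (f := Pool.Agent.H319R2.T) (x := x)
    rw [hx] at h1
    exact h1 (by simpa using hi) (by simpa using hj) h
  have hcard : Z.card = n := by rw [hZd, card_image_of_injOn hinj, card_range]
  have hodds : Pool.Agent.H547R3.odds Z = (word 3 1 x n).count true := by
    unfold Pool.Agent.H547R3.odds
    rw [hZd, filter_image, card_image_of_injOn, count_word]
    intro i hi j hj h
    exact hinj (by simp at hi ⊢; exact hi.1) (by simp at hj ⊢; exact hj.1) h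
  have hxZ : x ∈ Z := by
    rw [hZd, mem_image]
    exact ⟨0, mem_range.2 (by omega), rfl⟩
  obtain ⟨x0, hx0, hmin⟩ := exists_min_image Z (fun x => |x|) ⟨x, hxZ⟩
  by_cases h0 : x0 = 0
  · left
    obtain ⟨j, rfl⟩ := hZ.back hx0 hxZ
    exact known_iter (by rw [h0]; unfold Known; simp) j
  by_cases hsmall : |x0| < 32768
  · left
    have hk : Known x0 := by
      rcases Pool.Agent.W42.Small.least h0 hsmall (fun j => hmin _ (hZ.closed hx0 j)) with h | h | h | h <;>
        rw [h] <;> unfold Known <;> simp
    obtain ⟨j, rfl⟩ := hZ.back hx0 hxZ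
    exact known_iter hk j
  · right
    push Not at hsmall
    have h00 : (0 : ℤ) ∉ Z := by
      intro h
      have := hmin 0 h
      simp only [abs_zero] at this
      linarith
    have h1 := hZ.form_le h00
    rw [hcard, hodds] at h1
    have h2 : ∑ x ∈ Z, 1 / |(x : ℝ)| ≤ Z.card • (1 / (32768 : ℝ)) := by
      apply sum_le_card_nsmul
      intro y hy
      apply one_div_le_one_div_of_le (by norm_num)
      have : (32768 : ℤ) ≤ |y| := hsmall.trans (hmin y hy)
      exact_mod_cast this
    rw [hcard, nsmul_eq_mul] at h2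
    linarith

/-- **Balanced products.** -/
theorem balanced_known {x : ℤ} {p q s : ℕ} {u v : List Bool} (hp : 1 ≤ p) (hq : 1 ≤ q)
    (hc : p.Coprime q) (hu : u ≠ []) (hv : v ≠ [])
    (hw : word 3 1 x (Function.minimalPeriod (T 3 1) x) = balanced p q s u v)
    (hE : (u.length : ℝ) + v.length + (Real.logb 2 3 - 1) * (u.count true + v.count true) ≤
      97 / 100 * Function.minimalPeriod (T 3 1) x) : Known x := by
  obtain ⟨n, hn⟩ : ∃ n, Function.minimalPeriod (T 3 1) x = n := ⟨_, rfl⟩
  rw [hn] at hw hE
  have hu1 : 1 ≤ u.length := List.length_pos_iff.2 hu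
  have hv1 : 1 ≤ v.length := List.length_pos_iff.2 hv
  have hbl : balanced p q s u v = (List.range (p + q)).flatMap (blk p q s u v) := rfl
  have hlen : n = q * u.length + p * v.length := by
    have h1 := congrArg List.length hw
    rw [word_length, hbl, length_flatMap] at h1
    rw [h1]
    exact sum_blk hp hc u v List.length
  have hcount : (word 3 1 x n).count true = q * u.count true + p * v.count true := by
    rw [hw, hbl, ← sum_blk (s := s) hp hc u v (List.count true)]
    generalize p + q = m
    generalize blk p q s u v = B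
    induction m with
    | zero => simp
    | succ m ih =>
      rw [List.range_succ, List.flatMap_append, List.count_append, ih, Finset.sum_range_succ]
      simp
  have hn1 : 1 ≤ n := by rw [hlen]; nlinarith
  rcases known_or hn1 (by rw [← T_eq]; exact hn) with h | h
  · exact h
  exfalso
  have hx : (T 3 1)^[n] x = x := by rw [← hn]; exact Function.iterate_minimalPeriod
  have P : Pt 3 1 x p q s u v := ⟨by norm_num, by norm_num, by norm_num, hp, hc, by rw [← hlen]; exact hw, by
    rw [← hlen]; exact hx⟩
  have hne : com 3 u v ≠ 0 := by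
    refine P.com_ne hq hu1 hv1 fun m hm1 hm2 hm3 => ?_
    rw [← hlen] at hm2
    exact Function.not_isPeriodicPt_of_pos_of_lt_minimalPeriod (by omega) (by rw [hn]; exact hm2) hm3
  have hdvd := P.dvd hq hu1
  rw [← hlen, ← hcount, one_mul] at hdvd
  have h1 : |(2 : ℝ) ^ n - 3 ^ ((word 3 1 x n).count true)| ≤ |(com 3 u v : ℝ)| := by
    have h2 : |(2 : ℤ) ^ n - 3 ^ ((word 3 1 x n).count true)| ≤ |com 3 u v| :=
      Int.le_of_dvd (abs_pos.2 hne) ((abs_dvd_abs _ _).2 hdvd)
    exact_mod_cast h2
  have h2 := big_diff n ((word 3 1 x n).count true) hn1 h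
  have h3 := com_le (a := 3) (by norm_num) u v
  have h32 : ((3 : ℤ) / 2 : ℝ) = 2 ^ (Real.logb 2 3 - 1) := by
    rw [Real.rpow_sub (by norm_num), Real.rpow_one, Real.rpow_logb (by norm_num) (by norm_num)
      (by norm_num)]
    norm_num
  have h4 : (2 : ℝ) ^ (u.length + v.length) * (((3 : ℤ) : ℝ) / 2) ^ (u.count true + v.count true) =
      2 ^ ((u.length : ℝ) + v.length + (Real.logb 2 3 - 1) * (u.count true + v.count true)) := by
    rw [Real.rpow_add (by norm_num), Real.rpow_mul (by norm_num), ← h32, ← Nat.cast_add,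
      ← Nat.cast_add, Real.rpow_natCast, Real.rpow_natCast]
  have h5 : (2 : ℝ) ^ ((u.length : ℝ) + v.length + (Real.logb 2 3 - 1) *
      (u.count true + v.count true)) ≤ 2 ^ (97 / 100 * (n : ℝ)) :=
    Real.rpow_le_rpow_of_exponent_le (by norm_num) hE
  rw [h4] at h3
  linarith

theorem logb_lt : Real.logb 2 3 < 8 / 5 := by
  rw [Real.logb_lt_iff_lt_rpow (by norm_num) (by norm_num)]
  have h1 : (3 : ℝ) ^ 5 < (2 : ℝ) ^ 8 := by norm_num
  have h2 : ((2 : ℝ) ^ ((8 : ℝ) / 5)) ^ 5 = 2 ^ 8 := by
    rw [← Real.rpow_natCast, ← Real.rpow_mul (by norm_num)]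
    norm_num
  rw [← h2] at h1
  exact lt_of_pow_lt_pow_left₀ 5 (by positivity) h1

end Pool.Agent.V5helper2.BC
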