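import Mathlib
import Pool.Agent.V5helper2.BC.Main

set_option autoImplicit false

/-!
Repeated factors in the parity words of cycles.
-/

namespace Pool.Agent.V5helper2.BC

open Finset Pool.Agent.H944.BX

/-- A cycle other than the five known ones, with its data. -/
structure Un (Z : Finset ℤ) : Prop where
  hZ : Pool.Agent.H547R3.IsCycle Z
  hk : ∀ x ∈ Z, ¬ Known x

theorem per_of {Z : Finset ℤ} (hZ : Pool.Agent.H547R3.IsCycle Z) {x : ℤ} (hx : x ∈ Z) :
    Function.minimalPeriod Pool.Agent.H319R2.T x = Z.card ∧ (word 3 1 x Z.card).count true = Pool.Agent.H547R3.odds Z ∧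
      1 ≤ Z.card := by
  classical
  obtain ⟨z, hz, hpos, hset, hcard, hodd, hinj⟩ := hZ.normal
  have hpz : Function.minimalPeriod Pool.Agent.H319R2.T x = Function.minimalPeriod Pool.Agent.H319R2.T z := by
    obtain ⟨j, rfl⟩ := hZ.back hz hx
    exact Function.minimalPeriod_apply_iterate (hZ.periodic hz) j
  have hn : Function.minimalPeriod Pool.Agent.H319R2.T x = Z.card := by rw [hpz, hcard]
  have h1 : 1 ≤ Z.card := hZ.card_pos
  set n := Z.card with hnd
  have hper : Pool.Agent.H319R2.T^[n] x = x := by rw [← hn]; exact Function.iterate_minimalPeriod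
  set Z' : Finset ℤ := (range n).image fun i => Pool.Agent.H319R2.T^[i] x with hZd
  have hZ' : Pool.Agent.H547R3.IsCycle Z' := ⟨x, n, h1, hper, rfl⟩
  have hxZ : x ∈ Z' := by
    rw [hZd, mem_image]
    exact ⟨0, mem_range.2 (by omega), rfl⟩
  have hZZ : Z = Z' := hZ.eq_of_mem hZ' hx hxZ
  have hinj : Set.InjOn (fun i => Pool.Agent.H319R2.T^[i] x) (range n : Set ℕ) := by
    intro i hi j hj h
    have h1 := Function.iterate_injOn_Iio_minimalPeriod (f := Pool.Agent.H319R2.T) (x := x)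
    rw [hn] at h1
    exact h1 (by simpa using hi) (by simpa using hj) h
  refine ⟨hn, ?_, h1⟩
  rw [hZZ]
  unfold Pool.Agent.H547R3.odds
  rw [hZd, filter_image, card_image_of_injOn, count_word]
  intro i hi j hj h
  exact hinj (by simp at hi ⊢; exact hi.1) (by simp at hj ⊢; exact hj.1) h

theorem logb_le : Real.logb 2 3 ≤ 65 / 41 := by
  rw [Real.logb_le_iff_le_rpow (by norm_num) (by norm_num)]
  have h1 : (3 : ℝ) ^ 41 ≤ (2 : ℝ) ^ 65 := by norm_num
  have h2 : ((2 : ℝ) ^ (65 / 41 : ℝ)) ^ 41 = 2 ^ 65 := by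
    rw [← Real.rpow_natCast, ← Real.rpow_mul (by norm_num)]
    norm_num
  rw [← h2] at h1
  exact le_of_pow_le_pow_left₀ (by norm_num) (by positivity) h1

theorem logb_ge : 1.58 ≤ Real.logb 2 3 := by
  rw [Real.le_logb_iff_rpow_le (by norm_num) (by norm_num)]
  have h1 : (2 : ℝ) ^ 79 ≤ (3 : ℝ) ^ 50 := by norm_num
  have h2 : ((2 : ℝ) ^ (1.58 : ℝ)) ^ 50 = 2 ^ 79 := by
    rw [← Real.rpow_natCast, ← Real.rpow_mul (by norm_num)]
    norm_num
  rw [← h2] at h1
  exact le_of_pow_le_pow_left₀ (by norm_num) (by positivity) h1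

theorem cst_append (u v : List Bool) :
    cst 3 (u ++ v) = cst 3 u * 3 ^ (v.count true) + 2 ^ u.length * cst 3 v := by
  induction u with
  | nil => simp [cst]
  | cons c u ih =>
    rw [List.cons_append, cst, ih, cst, List.count_append, List.length_cons, pow_succ, pow_add]
    cases c
    · simp; ring
    · simp; ring

theorem cst_rpow (u : List Bool) : (cst 3 u : ℝ) ≤
    2 ^ ((u.length : ℝ) + (Real.logb 2 3 - 1) * u.count true) := by
  have h := cst_le' (a := 3) (by norm_num) u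
  have h32 : (((3 : ℤ) : ℝ) / 2) = 2 ^ (Real.logb 2 3 - 1) := by
    rw [Real.rpow_sub (by norm_num), Real.rpow_one, Real.rpow_logb (by norm_num) (by norm_num)
      (by norm_num)]
    norm_num
  rw [Real.rpow_add (by norm_num), Real.rpow_mul (by norm_num), ← h32, Real.rpow_natCast,
    Real.rpow_natCast]
  exact h

/-- The linear form of an unknown cycle. -/
theorem Un.form {Z : Finset ℤ} (U : Un Z) :
    |(Z.card : ℝ) * Real.log 2 - Pool.Agent.H547R3.odds Z * Real.log 3| ≤ Z.card / 65536 := by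
  obtain ⟨x, hx, -⟩ := U.hZ.normal
  obtain ⟨h1, h2, h3⟩ := per_of U.hZ hx
  rcases known_or h3 h1 with h | h
  · exact absurd h (U.hk x hx)
  · rwa [h2] at h

theorem Un.odds_le {Z : Finset ℤ} (U : Un Z) :
    (Real.logb 2 3 - 1) * (Pool.Agent.H547R3.odds Z : ℝ) ≤ 0.3695 * Z.card := by
  have h := (abs_le.1 U.form).1
  have l2 := Real.log_two_lt_d9
  have l3 := log3_gt
  have hb := logb_le
  have hb' := logb_ge
  have hZ0 : (0 : ℝ) ≤ Z.card := Nat.cast_nonneg _
  have hO0 : (0 : ℝ) ≤ Pool.Agent.H547R3.odds Z := Nat.cast_nonneg _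
  have h1 : (Pool.Agent.H547R3.odds Z : ℝ) ≤ 0.6311 * Z.card := by
    by_contra hcon
    push Not at hcon
    nlinarith
  nlinarith

theorem Un.big {Z : Finset ℤ} (U : Un Z) :
    2 * (2 : ℝ) ^ (97 / 100 * (Z.card : ℝ)) <
      |(2 : ℝ) ^ Z.card - 3 ^ (Pool.Agent.H547R3.odds Z)| :=
  big_diff _ _ U.hZ.card_pos U.form

theorem Un.card_ge {Z : Finset ℤ} (U : Un Z) : 401 ≤ Z.card := by
  by_contra hcon
  push Not at hcon
  have := short_form Z.card (Pool.Agent.H547R3.odds Z) U.hZ.card_pos (by omega)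
  have h := U.form
  linarith

/-- The elements of an unknown cycle are smaller than `2 ^ (2 L / 5 - 1)`. -/
theorem Un.size {Z : Finset ℤ} (U : Un Z) {x : ℤ} (hx : x ∈ Z) :
    |(x : ℝ)| < 2 ^ (2 / 5 * (Z.card : ℝ) - 1) := by
  obtain ⟨h1, h2, h3⟩ := per_of U.hZ hx
  set n := Z.card
  have hper : (T 3 1)^[n] x = x := by rw [T_eq, ← h1]; exact Function.iterate_minimalPeriod
  have hs := step (a := 3) (b := 1) (by norm_num) (by norm_num) (word 3 1 x n) x (by rw [word_length])
  rw [word_length, hper, h2] at hs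
  set K := Pool.Agent.H547R3.odds Z
  have e : ((2 : ℝ) ^ n - 3 ^ K) * x = cst 3 (word 3 1 x n) := by
    have := congrArg (fun z : ℤ => (z : ℝ)) hs
    push_cast at this
    linarith
  have h4 := cst_rpow (word 3 1 x n)
  rw [word_length, h2] at h4
  have h5 := U.big
  have h6 : |(2 : ℝ) ^ n - 3 ^ K| * |(x : ℝ)| ≤ 2 ^ ((n : ℝ) + (Real.logb 2 3 - 1) * K) := by
    rw [← abs_mul, e, abs_of_nonneg (by exact_mod_cast cst_nonneg (by norm_num) _)]
    exact h4
  have h7 : (2 : ℝ) ^ ((n : ℝ) + (Real.logb 2 3 - 1) * K) ≤ 2 ^ (1.3695 * (n : ℝ)) := by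
    apply Real.rpow_le_rpow_of_exponent_le (by norm_num)
    have := U.odds_le
    linarith
  have h8 : (2 : ℝ) ^ (1.3695 * (n : ℝ)) ≤
      (2 * (2 : ℝ) ^ (97 / 100 * (n : ℝ))) * 2 ^ (2 / 5 * (n : ℝ) - 1) := by
    have : (2 : ℝ) * (2 : ℝ) ^ (97 / 100 * (n : ℝ)) * 2 ^ (2 / 5 * (n : ℝ) - 1) =
        2 ^ (1 + 97 / 100 * (n : ℝ) + (2 / 5 * (n : ℝ) - 1)) := by
      rw [Real.rpow_add (by norm_num), Real.rpow_add (by norm_num), Real.rpow_one]
    rw [this]
    apply Real.rpow_le_rpow_of_exponent_le (by norm_num)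
    have hn0 : (0 : ℝ) ≤ n := Nat.cast_nonneg _
    linarith
  by_contra hcon
  push Not at hcon
  have h9 : (0 : ℝ) < 2 ^ (2 / 5 * (n : ℝ) - 1) := by positivity
  have h10 : (2 * (2 : ℝ) ^ (97 / 100 * (n : ℝ))) * 2 ^ (2 / 5 * (n : ℝ) - 1) <
      |(2 : ℝ) ^ n - 3 ^ K| * |(x : ℝ)| := by
    calc _ < |(2 : ℝ) ^ n - 3 ^ K| * 2 ^ (2 / 5 * (n : ℝ) - 1) := mul_lt_mul_of_pos_right h5 h9
      _ ≤ _ := mul_le_mul_of_nonneg_left hcon (abs_nonneg _)
  linarith

/-- integers with the same parity word of length `m` are congruent modulo `2 ^ m` -/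
theorem dvd_of_word {x y : ℤ} {m : ℕ} (h : word 3 1 x m = word 3 1 y m) : (2 : ℤ) ^ m ∣ x - y := by
  have h1 := step (a := 3) (b := 1) (by norm_num) (by norm_num) (word 3 1 x m) x (by rw [word_length])
  have h2 := step (a := 3) (b := 1) (by norm_num) (by norm_num) (word 3 1 x m) y
    (by rw [word_length]; exact h.symm)
  rw [word_length] at h1 h2
  have h3 : (3 : ℤ) ^ ((word 3 1 x m).count true) * (x - y) =
      2 ^ m * ((T 3 1)^[m] x - (T 3 1)^[m] y) := by linear_combination h2 - h1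
  have h4 : IsCoprime ((2 : ℤ) ^ m) (3 ^ ((word 3 1 x m).count true)) := by
    apply IsCoprime.pow
    exact ⟨-1, 1, by norm_num⟩
  exact h4.dvd_of_dvd_mul_left (Dvd.intro _ h3.symm)

/-- The basic inequality for repeated factors. -/
theorem rep_core {Z : Finset ℤ} (hZ : Pool.Agent.H547R3.IsCycle Z) {x y : ℤ} (hx : x ∈ Z) (hy : y ∈ Z)
    (hxy : x ≠ y) {m : ℕ} (hw : word 3 1 x m = word 3 1 y m) :
    |(2 : ℝ) ^ Z.card - 3 ^ (Pool.Agent.H547R3.odds Z)| ≤ 2 ^ ((Z.card : ℝ) - m +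
      (Real.logb 2 3 - 1) * (Pool.Agent.H547R3.odds Z - (word 3 1 x m).count true)) := by
  obtain ⟨hx1, hx2, hx3⟩ := per_of hZ hx
  obtain ⟨hy1, hy2, -⟩ := per_of hZ hy
  set n := Z.card
  set K := Pool.Agent.H547R3.odds Z
  have hperx : (T 3 1)^[n] x = x := by rw [T_eq, ← hx1]; exact Function.iterate_minimalPeriod
  have hpery : (T 3 1)^[n] y = y := by rw [T_eq, ← hy1]; exact Function.iterate_minimalPeriod
  have hsx := step (a := 3) (b := 1) (by norm_num) (by norm_num) (word 3 1 x n) x (by rw [word_length])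
  have hsy := step (a := 3) (b := 1) (by norm_num) (by norm_num) (word 3 1 y n) y (by rw [word_length])
  rw [word_length, hperx, hx2] at hsx
  rw [word_length, hpery, hy2] at hsy
  have hNne : (2 : ℤ) ^ n - 3 ^ K ≠ 0 := by
    intro h0
    exact pow_ne (a := 3) (by norm_num) n K hx3 (sub_eq_zero.1 h0)
  -- the words of length `n` are different
  have hmn : m < n := by
    by_contra hcon
    push Not at hcon
    obtain ⟨r, rfl⟩ : ∃ r, m = n + r := ⟨m - n, by omega⟩
    rw [word_add, word_add] at hw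
    have h1 := (List.append_inj hw (by rw [word_length, word_length])).1
    rw [h1] at hsx
    apply hxy
    have h2 : ((2 : ℤ) ^ n - 3 ^ K) * (x - y) = 0 := by linear_combination hsx - hsy
    rcases mul_eq_zero.1 h2 with h3 | h3
    · exact absurd h3 hNne
    · linarith
  obtain ⟨r, hr⟩ : ∃ r, n = m + r := ⟨n - m, by omega⟩
  set f := word 3 1 x m with hf
  set s := word 3 1 ((T 3 1)^[m] x) r with hs
  set t := word 3 1 ((T 3 1)^[m] y) r with ht
  have ex : word 3 1 x n = f ++ s := by rw [hr, word_add]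
  have ey : word 3 1 y n = f ++ t := by rw [hr, word_add, ← hw]
  have hcs : f.count true + s.count true = K := by rw [← hx2, ex, List.count_append]
  have hct : f.count true + t.count true = K := by rw [← hy2, ey, List.count_append]
  have hst : s.count true = t.count true := by omega
  have hfl : f.length = m := word_length _ _
  rw [ex, cst_append, hfl] at hsx
  rw [ey, cst_append, hfl, ← hst] at hsy
  have e1 : ((2 : ℤ) ^ n - 3 ^ K) * (x - y) = 2 ^ m * (cst 3 s - cst 3 t) := by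
    linear_combination hsx - hsy
  have hcop : IsCoprime ((2 : ℤ) ^ n - 3 ^ K) (2 ^ m) := by
    have h1 : IsCoprime ((3 : ℤ) ^ K) (2 ^ m) := by
      apply IsCoprime.pow
      exact ⟨1, -1, by norm_num⟩
    obtain ⟨n', hn'⟩ : ∃ n', n = m + n' := ⟨r, hr⟩
    have h2 : (2 : ℤ) ^ n - 3 ^ K = -(3 ^ K) + 2 ^ m * 2 ^ n' := by rw [hn', pow_add]; ring
    rw [h2]
    exact h1.neg_left.add_mul_left_left _
  have hdvd : (2 : ℤ) ^ n - 3 ^ K ∣ cst 3 s - cst 3 t :=
    hcop.dvd_of_dvd_mul_left (Dvd.intro _ e1)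
  have hne : cst 3 s - cst 3 t ≠ 0 := by
    intro h0
    rw [h0, mul_zero] at e1
    rcases mul_eq_zero.1 e1 with h3 | h3
    · exact hNne h3
    · exact hxy (by linarith)
  have hle : |(2 : ℤ) ^ n - 3 ^ K| ≤ |cst 3 s - cst 3 t| :=
    Int.le_of_dvd (abs_pos.2 hne) ((abs_dvd_abs _ _).2 hdvd)
  have hleR : |(2 : ℝ) ^ n - 3 ^ K| ≤ |(cst 3 s : ℝ) - cst 3 t| := by exact_mod_cast hle
  have hsl : s.length = r := word_length _ _
  have htl : t.length = r := word_length _ _
  have hb : |(cst 3 s : ℝ) - cst 3 t| ≤ 2 ^ ((r : ℝ) + (Real.logb 2 3 - 1) * s.count true) := by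
    have h1 := cst_rpow s
    have h2 := cst_rpow t
    rw [hsl] at h1
    rw [htl, ← hst] at h2
    have h3 : (0 : ℝ) ≤ cst 3 s := by exact_mod_cast cst_nonneg (by norm_num) s
    have h4 : (0 : ℝ) ≤ cst 3 t := by exact_mod_cast cst_nonneg (by norm_num) t
    rw [abs_le]
    constructor <;> linarith
  have h8 : (K : ℝ) = f.count true + s.count true := by exact_mod_cast hcs.symm
  have h9 : (n : ℝ) = m + r := by exact_mod_cast hr
  refine hleR.trans (hb.trans (le_of_eq ?_))
  rw [h8, h9]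
  congr 1
  ring

/-- **Repeated factors.** -/
theorem Un.rep {Z : Finset ℤ} (U : Un Z) {x y : ℤ} (hx : x ∈ Z) (hy : y ∈ Z) (hxy : x ≠ y) {m : ℕ}
    (hw : word 3 1 x m = word 3 1 y m) :
    (m : ℝ) + (Real.logb 2 3 - 1) * (word 3 1 x m).count true < 2 / 5 * Z.card := by
  have hb := rep_core U.hZ hx hy hxy hw
  have hbig := U.big
  have h5 : (2 : ℝ) ^ (97 / 100 * (Z.card : ℝ)) < 2 ^ ((Z.card : ℝ) - m +
      (Real.logb 2 3 - 1) * (Pool.Agent.H547R3.odds Z - (word 3 1 x m).count true)) := by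
    have : (0 : ℝ) < 2 ^ (97 / 100 * (Z.card : ℝ)) := by positivity
    linarith
  have h6 := (Real.rpow_lt_rpow_left_iff (x := 2) (by norm_num)).1 h5
  have h7 := U.odds_le
  have hn1 : (1 : ℝ) ≤ Z.card := by exact_mod_cast U.hZ.card_pos
  nlinarith

/-- `|2 ^ L - 3 ^ K|` in terms of the linear form, relative to `3 ^ K`. -/
theorem diff_lower' (L K : ℕ) : (3 : ℝ) ^ K * min |(L : ℝ) * Real.log 2 - K * Real.log 3| 1 ≤
    2 * |(2 : ℝ) ^ L - 3 ^ K| := by
  rcases le_or_gt ((3 : ℝ) ^ K) (2 ^ L) with h | h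
  · refine le_trans ?_ (diff_lower L K)
    exact mul_le_mul_of_nonneg_right h (le_min (abs_nonneg _) zero_le_one)
  have h2 : (0 : ℝ) < 3 ^ K := by positivity
  set y := (K : ℝ) * Real.log 3 - L * Real.log 2 with hy
  have hy0 : 0 ≤ y := by
    have := Real.log_le_log (by positivity) h.le
    rw [Real.log_pow, Real.log_pow] at this
    linarith
  have e : (3 : ℝ) ^ K - 2 ^ L = 3 ^ K * (1 - Real.exp (-y)) := by
    have h3 : Real.exp (-y) = 2 ^ L / 3 ^ K := by
      rw [show -y = Real.log (2 ^ L / 3 ^ K) by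
        rw [Real.log_div (by positivity) (by positivity), Real.log_pow, Real.log_pow, hy]; ring]
      exact Real.exp_log (by positivity)
    rw [h3]
    field_simp
  have e2 : |(L : ℝ) * Real.log 2 - K * Real.log 3| = y := by
    rw [show (L : ℝ) * Real.log 2 - K * Real.log 3 = -y by rw [hy]; ring, abs_neg, abs_of_nonneg hy0]
  rw [e2, abs_sub_comm, e, abs_mul, abs_of_pos h2]
  have h1 : Real.exp (-y) ≤ 1 := Real.exp_le_one_iff.2 (by linarith)
  rw [abs_of_nonneg (by linarith)]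
  have key : min y 1 ≤ 2 * (1 - Real.exp (-y)) := by
    have h4 : Real.exp (-1) ≤ 1 / 2 := by
      rw [Real.exp_neg, ← one_div]
      apply one_div_le_one_div_of_le (by norm_num)
      have := Real.add_one_le_exp (1 : ℝ)
      linarith
    rcases le_or_gt y 1 with hy1 | hy1
    · refine (min_le_left _ _).trans ?_
      have hc := convexOn_exp.2 (Set.mem_univ (0 : ℝ)) (Set.mem_univ (-1 : ℝ))
        (show 0 ≤ 1 - y by linarith) hy0 (by ring)
      simp only [smul_eq_mul, mul_zero, zero_add, Real.exp_zero, mul_one] at hc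
      have h5 : y * -1 = -y := by ring
      rw [h5] at hc
      nlinarith
    · refine (min_le_right _ _).trans ?_
      have : Real.exp (-y) ≤ Real.exp (-1) := Real.exp_le_exp.2 (by linarith)
      linarith
  nlinarith

/-- **Repeated factors, asymptotically.** -/
theorem rep_asym : ∃ C : ℝ, ∀ Z : Finset ℤ, Pool.Agent.H547R3.IsCycle Z → ∀ x ∈ Z, ∀ y ∈ Z, x ≠ y →
    ∀ m : ℕ, word 3 1 x m = word 3 1 y m →
      (m : ℝ) + (Real.logb 2 3 - 1) * (word 3 1 x m).count true ≤
        (1 - Real.log 2 / Real.log 3) * Z.card + 13 * Real.logb 2 Z.card + C := by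
  obtain ⟨c, hc, hm⟩ := Pool.Agent.H319R2.measure
  have l2 : 0 < Real.log 2 := Real.log_pos (by norm_num)
  have l3 : 0 < Real.log 3 := Real.log_pos (by norm_num)
  have hl : Real.logb 2 3 = Real.log 3 / Real.log 2 := rfl
  have hβ : 1 < Real.logb 2 3 := by have := logb_ge; linarith
  set c' : ℝ := min c 1 with hc'
  have hc'0 : 0 < c' := lt_min hc one_pos
  refine ⟨14 - Real.logb 2 c', fun Z hZ x hx y hy hxy m hw => ?_⟩
  have hcore := rep_core hZ hx hy hxy hw
  obtain ⟨-, hK, hn⟩ := per_of hZ hx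
  have hKn : Pool.Agent.H547R3.odds Z ≤ Z.card := card_filter_le _ _
  set n := Z.card
  set K := Pool.Agent.H547R3.odds Z
  set k := (word 3 1 x m).count true
  have hnR : (1 : ℝ) ≤ n := by exact_mod_cast hn
  have hKR : (K : ℝ) ≤ n := by exact_mod_cast hKn
  -- lower bound of the linear form
  have h1 := hm (n : ℤ) (-(K : ℤ)) (Or.inl (by omega))
  have h2 : (((|(n : ℤ)| + |-(K : ℤ)| : ℤ)) : ℝ) ≤ 2 * n := by
    rw [abs_neg, Nat.abs_cast, Nat.abs_cast]
    push_cast
    linarith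
  have h20 : (0 : ℝ) ≤ (((|(n : ℤ)| + |-(K : ℤ)| : ℤ)) : ℝ) := by positivity
  have h3 : |((n : ℤ) : ℝ) * Real.log 2 + ((-(K : ℤ) : ℤ) : ℝ) * Real.log 3| =
      |(n : ℝ) * Real.log 2 - K * Real.log 3| := by push_cast; congr 1; ring
  rw [h3] at h1
  set Λ := |(n : ℝ) * Real.log 2 - K * Real.log 3| with hΛ
  have hΛ0 : 0 ≤ Λ := abs_nonneg _
  have h4 : c' ≤ (2 * (n : ℝ)) ^ 13 * min Λ 1 := by
    rcases le_total Λ 1 with h | h
    · rw [min_eq_left h]
      refine (min_le_left _ _).trans (h1.trans ?_)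
      exact mul_le_mul_of_nonneg_right (pow_le_pow_left₀ h20 h2 13) hΛ0
    · rw [min_eq_right h, mul_one]
      refine (min_le_right _ _).trans (one_le_pow₀ (by linarith))
  -- the two lower bounds for the difference
  have d1 := diff_lower n K
  have d2 := diff_lower' n K
  rw [← hΛ] at d1 d2
  have hpos : (0 : ℝ) < (2 * (n : ℝ)) ^ 13 := by positivity
  have hE : ∀ A : ℝ, A * min Λ 1 ≤ 2 * |(2 : ℝ) ^ n - 3 ^ K| → 0 < A →
      A * c' ≤ (2 * (n : ℝ)) ^ 13 * (2 * 2 ^ ((n : ℝ) - m + (Real.logb 2 3 - 1) * (K - k))) := by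
    intro A hA hA0
    calc A * c' ≤ A * ((2 * (n : ℝ)) ^ 13 * min Λ 1) := mul_le_mul_of_nonneg_left h4 hA0.le
      _ = (2 * (n : ℝ)) ^ 13 * (A * min Λ 1) := by ring
      _ ≤ (2 * (n : ℝ)) ^ 13 * (2 * |(2 : ℝ) ^ n - 3 ^ K|) := mul_le_mul_of_nonneg_left hA hpos.le
      _ ≤ _ := mul_le_mul_of_nonneg_left (by linarith) hpos.le
  have hlogs : ∀ A : ℝ, A * min Λ 1 ≤ 2 * |(2 : ℝ) ^ n - 3 ^ K| → 0 < A →
      Real.logb 2 A + Real.logb 2 c' ≤ 13 * (1 + Real.logb 2 n) + (1 + ((n : ℝ) - m +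
        (Real.logb 2 3 - 1) * (K - k))) := by
    intro A hA hA0
    have h := Real.logb_le_logb_of_le (b := 2) (by norm_num) (by positivity) (hE A hA hA0)
    rw [Real.logb_mul hA0.ne' hc'0.ne', Real.logb_mul hpos.ne' (by positivity), Real.logb_pow,
      Real.logb_mul (by norm_num) (by positivity), Real.logb_mul (by norm_num) (by positivity),
      Real.logb_rpow (by norm_num) (by norm_num), Real.logb_self_eq_one (by norm_num)] at h
    exact_mod_cast h
  have g1 := hlogs _ d1 (by positivity)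
  have g2 := hlogs _ d2 (by positivity)
  rw [Real.logb_pow, Real.logb_self_eq_one (by norm_num), mul_one] at g1
  rw [Real.logb_pow] at g2
  -- combine according to the sign of `n log 2 - K log 3`
  rcases le_total ((K : ℝ) * Real.logb 2 3) n with h | h
  · have h5 : (K : ℝ) ≤ n * (Real.log 2 / Real.log 3) := by
      rw [hl] at h
      rw [← mul_div_assoc, le_div_iff₀ l3]
      rw [← mul_div_assoc, div_le_iff₀ l2] at h
      exact h
    have h6 : (Real.logb 2 3 - 1) * K ≤ (1 - Real.log 2 / Real.log 3) * n := by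
      have h7 : (Real.logb 2 3 - 1) * (n * (Real.log 2 / Real.log 3)) = (1 - Real.log 2 / Real.log 3) * n := by
        rw [hl]; field_simp
      rw [← h7]
      exact mul_le_mul_of_nonneg_left h5 (by linarith)
    linarith
  · have h5 : (n : ℝ) * (Real.log 2 / Real.log 3) ≤ K := by
      rw [hl] at h
      rw [← mul_div_assoc, div_le_iff₀ l3]
      rw [← mul_div_assoc, le_div_iff₀ l2] at h
      exact h
    linarith

end Pool.Agent.V5helper2.BC
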