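import Mathlib
import Pool.Agent.V5helper2.BC.Rep

set_option autoImplicit false

/-!
Repeated factors in the parity words of cycles of `T_{3,b}`, uniformly in `b`.
-/

namespace Pool.Agent.V5helper2.BC

open Finset Pool.Agent.H944.BX

theorem count_shift (b : ℤ) (x : ℤ) (n j : ℕ) (hx : (T 3 b)^[n] x = x) :
    (word 3 b ((T 3 b)^[j] x) n).count true = (word 3 b x n).count true := by
  have h1 : word 3 b x (j + n) = word 3 b x j ++ word 3 b ((T 3 b)^[j] x) n := word_add x j n
  have h2 : word 3 b x (n + j) = word 3 b x n ++ word 3 b ((T 3 b)^[n] x) j := word_add x n j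
  rw [hx, add_comm] at h2
  have h3 := congrArg (List.count true) (h1.symm.trans h2)
  rw [List.count_append, List.count_append] at h3
  omega

/-- The basic inequality for repeated factors. -/
theorem rep_b {b : ℤ} (hb : b % 2 = 1) {x : ℤ} {n j m : ℕ} (hn : 1 ≤ n) (hx : (T 3 b)^[n] x = x)
    (hxy : (T 3 b)^[j] x ≠ x) (hw : word 3 b x m = word 3 b ((T 3 b)^[j] x) m) :
    |(2 : ℝ) ^ n - 3 ^ ((word 3 b x n).count true)| ≤ |(b : ℝ)| * 2 ^ ((n : ℝ) - m +
      (Real.logb 2 3 - 1) * ((word 3 b x n).count true - (word 3 b x m).count true)) := by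
  have hyc := count_shift b x n j hx
  set y := (T 3 b)^[j] x with hyd
  have hy : (T 3 b)^[n] y = y := by
    rw [hyd, ← Function.iterate_add_apply, add_comm, Function.iterate_add_apply, hx]
  set K := (word 3 b x n).count true with hK
  have hb0 : b ≠ 0 := by rintro rfl; norm_num at hb
  have hsx := step (a := 3) (by norm_num) hb (word 3 b x n) x (by rw [word_length])
  have hsy := step (a := 3) (by norm_num) hb (word 3 b y n) y (by rw [word_length])
  rw [word_length, hx, ← hK] at hsx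
  rw [word_length, hy, hyc] at hsy
  have hNne : (2 : ℤ) ^ n - 3 ^ K ≠ 0 := by
    intro h0
    exact pow_ne (a := 3) (by norm_num) n K hn (sub_eq_zero.1 h0)
  have hmn : m < n := by
    by_contra hcon
    push Not at hcon
    obtain ⟨r, rfl⟩ : ∃ r, m = n + r := ⟨m - n, by omega⟩
    rw [word_add, word_add] at hw
    have h1 := (List.append_inj hw (by rw [word_length, word_length])).1
    rw [h1] at hsx
    apply hxy
    have h2 : ((2 : ℤ) ^ n - 3 ^ K) * (x - y) = 0 := by linear_combination hsx - hsy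
    rcases mul_eq_zero.1 h2 with h3 | h3
    · exact absurd h3 hNne
    · linarith
  obtain ⟨r, hr⟩ : ∃ r, n = m + r := ⟨n - m, by omega⟩
  set f := word 3 b x m with hf
  set s := word 3 b ((T 3 b)^[m] x) r with hs
  set t := word 3 b ((T 3 b)^[m] y) r with ht
  have ex : word 3 b x n = f ++ s := by rw [hr, word_add]
  have ey : word 3 b y n = f ++ t := by rw [hr, word_add, ← hw]
  have hcs : f.count true + s.count true = K := by rw [hK, ex, List.count_append]
  have hct : f.count true + t.count true = K := by rw [← hyc, ey, List.count_append]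
  have hst : s.count true = t.count true := by omega
  have hfl : f.length = m := word_length _ _
  rw [ex, cst_append, hfl] at hsx
  rw [ey, cst_append, hfl, ← hst] at hsy
  have e1 : ((2 : ℤ) ^ n - 3 ^ K) * (x - y) = 2 ^ m * (b * (cst 3 s - cst 3 t)) := by
    linear_combination hsx - hsy
  have hcop : IsCoprime ((2 : ℤ) ^ n - 3 ^ K) (2 ^ m) := by
    have h1 : IsCoprime ((3 : ℤ) ^ K) (2 ^ m) := by
      apply IsCoprime.pow
      exact ⟨1, -1, by norm_num⟩
    obtain ⟨n', hn'⟩ : ∃ n', n = m + n' := ⟨r, hr⟩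
    have h2 : (2 : ℤ) ^ n - 3 ^ K = -(3 ^ K) + 2 ^ m * 2 ^ n' := by rw [hn', pow_add]; ring
    rw [h2]
    exact h1.neg_left.add_mul_left_left _
  have hdvd : (2 : ℤ) ^ n - 3 ^ K ∣ b * (cst 3 s - cst 3 t) :=
    hcop.dvd_of_dvd_mul_left (Dvd.intro _ e1)
  have hne : b * (cst 3 s - cst 3 t) ≠ 0 := by
    intro h0
    rw [h0, mul_zero] at e1
    rcases mul_eq_zero.1 e1 with h3 | h3
    · exact hNne h3
    · exact hxy (by linarith)
  have hle : |(2 : ℤ) ^ n - 3 ^ K| ≤ |b * (cst 3 s - cst 3 t)| :=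
    Int.le_of_dvd (abs_pos.2 hne) ((abs_dvd_abs _ _).2 hdvd)
  have hleR : |(2 : ℝ) ^ n - 3 ^ K| ≤ |(b : ℝ)| * |(cst 3 s : ℝ) - cst 3 t| := by
    rw [← abs_mul]
    exact_mod_cast hle
  have hsl : s.length = r := word_length _ _
  have htl : t.length = r := word_length _ _
  have hb' : |(cst 3 s : ℝ) - cst 3 t| ≤ 2 ^ ((r : ℝ) + (Real.logb 2 3 - 1) * s.count true) := by
    have h1 := cst_rpow s
    have h2 := cst_rpow t
    rw [hsl] at h1
    rw [htl, ← hst] at h2
    have h3 : (0 : ℝ) ≤ cst 3 s := by exact_mod_cast cst_nonneg (by norm_num) s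
    have h4 : (0 : ℝ) ≤ cst 3 t := by exact_mod_cast cst_nonneg (by norm_num) t
    rw [abs_le]
    constructor <;> linarith
  have h8 : (K : ℝ) = f.count true + s.count true := by exact_mod_cast hcs.symm
  have h9 : (n : ℝ) = m + r := by exact_mod_cast hr
  refine hleR.trans ((mul_le_mul_of_nonneg_left hb' (abs_nonneg _)).trans (le_of_eq ?_))
  rw [h8, h9]
  congr 2
  ring

theorem log2_nonneg {b : ℤ} (hb : b % 2 = 1) : (0 : ℝ) ≤ Real.logb 2 |(b : ℝ)| ∧ (0 : ℝ) < |(b : ℝ)| := by
  have h1 : (1 : ℝ) ≤ |(b : ℝ)| := by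
    have : 1 ≤ |b| := Int.one_le_abs (by rintro rfl; norm_num at hb)
    exact_mod_cast this
  exact ⟨Real.logb_nonneg (by norm_num) h1, by linarith⟩

/-- logarithmic form of the lower bounds of `|2 ^ n - 3 ^ K|`, explicit version -/
theorem log_lower (n K : ℕ) (hn : 1 ≤ n) {E : ℝ} {B : ℝ} (hB : 0 < B)
    (h : |(2 : ℝ) ^ n - 3 ^ K| ≤ B * 2 ^ E) :
    (n : ℝ) ≤ E + Real.logb 2 B + n / 40 + 17 ∧ K * Real.logb 2 3 ≤ E + Real.logb 2 B + n / 40 + 17 := by
  have d1 := diff_lower n K
  have d2 := diff_lower' n K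
  have hl := lam_lower n K hn
  set Λ := |(n : ℝ) * Real.log 2 - K * Real.log 3|
  have hn0 : (0 : ℝ) ≤ n := Nat.cast_nonneg _
  have h3 : (2 : ℝ) ^ (-((n : ℝ) / 40 + 16)) ≤ min Λ 1 :=
    le_min hl (Real.rpow_le_one_of_one_le_of_nonpos (by norm_num) (by linarith))
  have key : ∀ A : ℝ, 0 < A → A * min Λ 1 ≤ 2 * |(2 : ℝ) ^ n - 3 ^ K| →
      Real.logb 2 A ≤ E + Real.logb 2 B + n / 40 + 17 := by
    intro A hA hle
    have h4 : A * 2 ^ (-((n : ℝ) / 40 + 16)) ≤ 2 * (B * 2 ^ E) :=
      (mul_le_mul_of_nonneg_left h3 hA.le).trans (hle.trans (by linarith))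
    have h5 := Real.logb_le_logb_of_le (b := 2) (by norm_num) (by positivity) h4
    rw [Real.logb_mul hA.ne' (by positivity), Real.logb_mul (by norm_num) (by positivity),
      Real.logb_mul hB.ne' (by positivity), Real.logb_rpow (by norm_num) (by norm_num),
      Real.logb_rpow (by norm_num) (by norm_num), Real.logb_self_eq_one (by norm_num)] at h5
    linarith
  have g1 := key _ (by positivity) d1
  have g2 := key _ (by positivity) d2
  rw [Real.logb_pow, Real.logb_self_eq_one (by norm_num), mul_one] at g1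
  rw [Real.logb_pow] at g2
  exact ⟨g1, g2⟩

/-- logarithmic form of the lower bounds of `|2 ^ n - 3 ^ K|`, asymptotic version -/
theorem log_lower_asym : ∃ C : ℝ, ∀ (n K : ℕ), 1 ≤ n → K ≤ n → ∀ E B : ℝ, 0 < B →
    |(2 : ℝ) ^ n - 3 ^ K| ≤ B * 2 ^ E →
    (n : ℝ) ≤ E + Real.logb 2 B + 13 * Real.logb 2 n + C ∧
      K * Real.logb 2 3 ≤ E + Real.logb 2 B + 13 * Real.logb 2 n + C := by
  obtain ⟨c, hc, hm⟩ := Pool.Agent.H319R2.measure
  set c' : ℝ := min c 1 with hc'
  have hc'0 : 0 < c' := lt_min hc one_pos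
  refine ⟨14 - Real.logb 2 c', fun n K hn hKn E B hB h => ?_⟩
  have hnR : (1 : ℝ) ≤ n := by exact_mod_cast hn
  have hKR : (K : ℝ) ≤ n := by exact_mod_cast hKn
  have h1 := hm (n : ℤ) (-(K : ℤ)) (Or.inl (by omega))
  have h2 : (((|(n : ℤ)| + |-(K : ℤ)| : ℤ)) : ℝ) ≤ 2 * n := by
    rw [abs_neg, Nat.abs_cast, Nat.abs_cast]
    push_cast
    linarith
  have h20 : (0 : ℝ) ≤ (((|(n : ℤ)| + |-(K : ℤ)| : ℤ)) : ℝ) := by positivity
  have h3 : |((n : ℤ) : ℝ) * Real.log 2 + ((-(K : ℤ) : ℤ) : ℝ) * Real.log 3| =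
      |(n : ℝ) * Real.log 2 - K * Real.log 3| := by push_cast; congr 1; ring
  rw [h3] at h1
  set Λ := |(n : ℝ) * Real.log 2 - K * Real.log 3| with hΛ
  have hΛ0 : 0 ≤ Λ := abs_nonneg _
  have h4 : c' ≤ (2 * (n : ℝ)) ^ 13 * min Λ 1 := by
    rcases le_total Λ 1 with h | h
    · rw [min_eq_left h]
      refine (min_le_left _ _).trans (h1.trans ?_)
      exact mul_le_mul_of_nonneg_right (pow_le_pow_left₀ h20 h2 13) hΛ0
    · rw [min_eq_right h, mul_one]
      refine (min_le_right _ _).trans (one_le_pow₀ (by linarith))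
  have d1 := diff_lower n K
  have d2 := diff_lower' n K
  rw [← hΛ] at d1 d2
  have hpos : (0 : ℝ) < (2 * (n : ℝ)) ^ 13 := by positivity
  have key : ∀ A : ℝ, 0 < A → A * min Λ 1 ≤ 2 * |(2 : ℝ) ^ n - 3 ^ K| →
      Real.logb 2 A ≤ E + Real.logb 2 B + 13 * Real.logb 2 n + (14 - Real.logb 2 c') := by
    intro A hA0 hA
    have h5 : A * c' ≤ (2 * (n : ℝ)) ^ 13 * (2 * (B * 2 ^ E)) := by
      calc A * c' ≤ A * ((2 * (n : ℝ)) ^ 13 * min Λ 1) := mul_le_mul_of_nonneg_left h4 hA0.le
        _ = (2 * (n : ℝ)) ^ 13 * (A * min Λ 1) := by ring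
        _ ≤ (2 * (n : ℝ)) ^ 13 * (2 * |(2 : ℝ) ^ n - 3 ^ K|) := mul_le_mul_of_nonneg_left hA hpos.le
        _ ≤ _ := mul_le_mul_of_nonneg_left (by linarith) hpos.le
    have h := Real.logb_le_logb_of_le (b := 2) (by norm_num) (by positivity) h5
    rw [Real.logb_mul hA0.ne' hc'0.ne', Real.logb_mul hpos.ne' (by positivity), Real.logb_pow,
      Real.logb_mul (by norm_num) (by positivity), Real.logb_mul (by norm_num) (by positivity),
      Real.logb_mul hB.ne' (by positivity),
      Real.logb_rpow (by norm_num) (by norm_num), Real.logb_self_eq_one (by norm_num)] at h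
    push_cast at h
    linarith
  have g1 := key _ (by positivity) d1
  have g2 := key _ (by positivity) d2
  rw [Real.logb_pow, Real.logb_self_eq_one (by norm_num), mul_one] at g1
  rw [Real.logb_pow] at g2
  exact ⟨g1, g2⟩

/-- combining the two lower bounds -/
theorem combine {n K m k A : ℝ}
    (h1 : n ≤ (n - m + (Real.logb 2 3 - 1) * (K - k)) + A)
    (h2 : K * Real.logb 2 3 ≤ (n - m + (Real.logb 2 3 - 1) * (K - k)) + A) :
    m + (Real.logb 2 3 - 1) * k ≤ (1 - Real.log 2 / Real.log 3) * n + A := by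
  have l2 : 0 < Real.log 2 := Real.log_pos (by norm_num)
  have l3 : 0 < Real.log 3 := Real.log_pos (by norm_num)
  have hl : Real.logb 2 3 = Real.log 3 / Real.log 2 := rfl
  have hβ : 1 < Real.logb 2 3 := by have := logb_ge; linarith
  rcases le_total (K * Real.logb 2 3) n with h | h
  · have h5 : K ≤ n * (Real.log 2 / Real.log 3) := by
      rw [hl] at h
      rw [← mul_div_assoc, le_div_iff₀ l3]
      rw [← mul_div_assoc, div_le_iff₀ l2] at h
      exact h
    have h6 : (Real.logb 2 3 - 1) * K ≤ (1 - Real.log 2 / Real.log 3) * n := by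
      have h7 : (Real.logb 2 3 - 1) * (n * (Real.log 2 / Real.log 3)) = (1 - Real.log 2 / Real.log 3) * n := by
        rw [hl]; field_simp
      rw [← h7]
      exact mul_le_mul_of_nonneg_left h5 (by linarith)
    linarith
  · have h5 : n * (Real.log 2 / Real.log 3) ≤ K := by
      rw [hl] at h
      rw [← mul_div_assoc, div_le_iff₀ l3]
      rw [← mul_div_assoc, le_div_iff₀ l2] at h
      exact h
    linarith

/-- **Balanced products, uniformly in `b`.** -/
theorem balanced_length {b : ℤ} (hb : b % 2 = 1) {x : ℤ} {p q s : ℕ} {u v : List Bool} (hp : 1 ≤ p)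
    (hq : 1 ≤ q) (hc : p.Coprime q) (hu : u ≠ []) (hv : v ≠ [])
    (hw : word 3 b x (Function.minimalPeriod (T 3 b) x) = balanced p q s u v) :
    |(2 : ℝ) ^ (Function.minimalPeriod (T 3 b) x) -
      3 ^ ((word 3 b x (Function.minimalPeriod (T 3 b) x)).count true)| ≤
      (2 * |(b : ℝ)|) * 2 ^ ((u.length : ℝ) + v.length +
        (Real.logb 2 3 - 1) * (u.count true + v.count true)) ∧
    Function.minimalPeriod (T 3 b) x = q * u.length + p * v.length ∧
    (word 3 b x (Function.minimalPeriod (T 3 b) x)).count true = q * u.count true + p * v.count true := by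
  obtain ⟨n, hn⟩ : ∃ n, Function.minimalPeriod (T 3 b) x = n := ⟨_, rfl⟩
  rw [hn] at hw ⊢
  have hu1 : 1 ≤ u.length := List.length_pos_iff.2 hu
  have hv1 : 1 ≤ v.length := List.length_pos_iff.2 hv
  have hb0 : b ≠ 0 := by rintro rfl; norm_num at hb
  have hbl : balanced p q s u v = (List.range (p + q)).flatMap (blk p q s u v) := rfl
  have hlen : n = q * u.length + p * v.length := by
    have h1 := congrArg List.length hw
    rw [word_length, hbl, length_flatMap] at h1
    rw [h1]
    exact sum_blk hp hc u v List.length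
  have hcount : (word 3 b x n).count true = q * u.count true + p * v.count true := by
    rw [hw, hbl, ← sum_blk (s := s) hp hc u v (List.count true)]
    generalize p + q = m
    generalize blk p q s u v = B
    induction m with
    | zero => simp
    | succ m ih =>
      rw [List.range_succ, List.flatMap_append, List.count_append, ih, Finset.sum_range_succ]
      simp
  have hn1 : 1 ≤ n := by rw [hlen]; nlinarith
  have hx : (T 3 b)^[n] x = x := by rw [← hn]; exact Function.iterate_minimalPeriod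
  have P : Pt 3 b x p q s u v := ⟨by norm_num, by norm_num, hb, hp, hc, by rw [← hlen]; exact hw, by
    rw [← hlen]; exact hx⟩
  have hne : b * com 3 u v ≠ 0 := by
    refine mul_ne_zero hb0 (P.com_ne hq hu1 hv1 fun m hm1 hm2 hm3 => ?_)
    rw [← hlen] at hm2
    exact Function.not_isPeriodicPt_of_pos_of_lt_minimalPeriod (by omega) (by rw [hn]; exact hm2) hm3
  have hdvd := P.dvd hq hu1
  rw [← hlen, ← hcount] at hdvd
  have h1 : |(2 : ℝ) ^ n - 3 ^ ((word 3 b x n).count true)| ≤ |(b : ℝ)| * |(com 3 u v : ℝ)| := by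
    have h2 : |(2 : ℤ) ^ n - 3 ^ ((word 3 b x n).count true)| ≤ |b * com 3 u v| :=
      Int.le_of_dvd (abs_pos.2 hne) ((abs_dvd_abs _ _).2 hdvd)
    rw [← abs_mul]
    exact_mod_cast h2
  have h3 := com_le (a := 3) (by norm_num) u v
  have h32 : ((3 : ℤ) / 2 : ℝ) = 2 ^ (Real.logb 2 3 - 1) := by
    rw [Real.rpow_sub (by norm_num), Real.rpow_one, Real.rpow_logb (by norm_num) (by norm_num)
      (by norm_num)]
    norm_num
  have h4 : (2 : ℝ) ^ (u.length + v.length) * (((3 : ℤ) : ℝ) / 2) ^ (u.count true + v.count true) =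
      2 ^ ((u.length : ℝ) + v.length + (Real.logb 2 3 - 1) * (u.count true + v.count true)) := by
    rw [Real.rpow_add (by norm_num), Real.rpow_mul (by norm_num), ← h32, ← Nat.cast_add,
      ← Nat.cast_add, Real.rpow_natCast, Real.rpow_natCast]
  rw [h4] at h3
  refine ⟨?_, hlen, hcount⟩
  have h6 := mul_le_mul_of_nonneg_left h3 (abs_nonneg (b : ℝ))
  linarith

end Pool.Agent.V5helper2.BC
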